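import Mathlib
import Pool.Agent.W102.TD.Defs

set_option autoImplicit false

namespace Pool.Agent.W768.TD
open Finset Pool.Agent.W102.TD

theorem FIN (h0 : ∀ m, TuDeng m) (h1 : FINW) (h2 : FINA) : Pool.Agent.W102.TD.FIN := by
  intro m
  rcases Nat.eq_zero_or_pos m with hm | hm
  · subst hm
    have hu : ∀ S : Finset (Fin (2 * 0)), S = ∅ := by
      intro S
      ext i
      exact absurd i.2 (by omega)
    have hv : ∀ x y : Fin (2 * 0) → ZMod 2, x = y := by
      intro x y
      funext i
      exact absurd i.2 (by omega)
    refine ⟨fun _ => 0, ?_, ?_⟩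
    · intro a
      have e : (univ : Finset (Fin (2 * 0) → ZMod 2)) = {0} := by
        ext x
        simp only [mem_univ, mem_singleton, true_iff]
        exact hv _ _
      rw [e, sum_singleton]
      simp
    · intro d
      simp only [zero_le, iff_true]
      refine ⟨fun _ => 1, ?_, Or.inl fun x => by simp, fun _ => 1, ?_, ?_⟩
      · intro h
        have := congrFun h 0
        simp at this
      · intro S _
        rw [hu S]
        simp
      · intro x
        have e : (univ : Finset (Finset (Fin (2 * 0)))) = {∅} := by
          ext S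
          simp only [mem_univ, mem_singleton, true_iff]
          exact hu S
        rw [e, sum_singleton]
        simp
  · have hm0 : m ≠ 0 := by omega
    let F := GaloisField 2 m
    let _ : Fintype F := Fintype.ofFinite F
    have hc : Fintype.card F = 2 ^ m := by
      rw [← Nat.card_eq_fintype_card]
      exact GaloisField.card 2 m hm0
    obtain ⟨g, hg⟩ := IsCyclic.exists_ofOrder_eq_natCard (α := Fˣ)
    have hα0 : (g : F) ≠ 0 := g.ne_zero
    have hα : orderOf (g : F) = 2 ^ m - 1 := by
      rw [orderOf_units, hg, Nat.card_units, Nat.card_eq_fintype_card, hc]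
    let e : F ≃ₗ[ZMod 2] (Fin m → ZMod 2) := LinearEquiv.ofFinrankEq _ _ (by
      rw [Module.finrank_fin_fun]
      exact GaloisField.finrank 2 hm0)
    exact ⟨ff (g : F) e, h1 F m hm hc _ hα0 hα e, h2 F m hm (h0 m) hc _ hα0 hα e⟩

end Pool.Agent.W768.TD
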